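import Pool.Agent.Q47.Setup.Main

/-!
MP_ded0ac_co, Q1: the ratio of perimeter and area of a shifted `(n + 1, n)`-setup exceeds the ratio
of a single regular `n`-gon.

The definitions are in `Pool/Agent/Q47/Setup`. The plane is `ℂ`; `dir t` is the unit vector with
the angle `t`; `circ n = 1 / (2 sin (π / n))` is the circumradius of the regular `n`-gon of side
one; `ngon n c t` is the convex hull of its vertices `c + circ n * dir (t + 2 π j / n)`, `j < n`;
`perim U` is the one-dimensional Hausdorff measure of the boundary of `U`, `areaOf U` the Lebesgue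
measure of `U`. `BasicSetup k n a`: the vertices of the `k` polygons `P i = ngon n 0 (a i)` together
form a regular `k n`-gon; the chosen vertex `A i` of `P i` is the one with the direction `a i`;
`Marked k n a`: the chosen vertices form a regular `k`-gon. `shifted k n a ε` is the union of the
polygons `P i + ε (O A i)`; for `ε = 0` it is the union of the basic setup.
-/

set_option autoImplicit false

namespace Pool.Agent.Results.MP_ded0ac_co.ShiftedSetups

open Q47.Setup

/-- For every `n ≥ 3`, every basic `(n + 1, n)`-setup and every admissible choice of vertices, all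
shifted setups with small `ε > 0` have the same perimeter as the basic setup and a smaller area, and
their ratio exceeds `4 tan (π / n)`. -/
theorem result (n : ℕ) (hn : 3 ≤ n) (a : Fin (n + 1) → ℝ) (_hb : BasicSetup (n + 1) n a)
    (ha : Marked (n + 1) n a) : ∃ ε₀ > 0, ∀ ε : ℝ, 0 < ε → ε < ε₀ →
      perim (shifted (n + 1) n a ε) = perim (shifted (n + 1) n a 0) ∧
      areaOf (shifted (n + 1) n a ε) < areaOf (shifted (n + 1) n a 0) ∧
      4 * Real.tan (Real.pi / n) <
        perim (shifted (n + 1) n a ε) / areaOf (shifted (n + 1) n a ε) := by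
  have hco : Nat.Coprime (n + 1) n := by simp
  have h1 : n + 1 ≡ 1 [MOD n] := by simp [Nat.ModEq]
  obtain ⟨e1, h2, h3⟩ := pointwise (by omega) hn hco ha
  obtain ⟨e2, h4, h5⟩ := shift_facts (by omega) hn hco h1 ha
  refine ⟨min e1 e2, lt_min h2 h4, fun ε h6 h7 => ?_⟩
  obtain ⟨h8, h9⟩ := h5 ε h6 (h7.trans_le (min_le_right _ _))
  exact ⟨h8, h9, (h3 ε h6 (h7.trans_le (min_le_left _ _))).mpr ⟨by omega, h1⟩⟩

end Pool.Agent.Results.MP_ded0ac_co.ShiftedSetups
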